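import Pool.Agent.FreeHeat.Defs
import Pool.Agent.FreeHeat.Proof
import Pool.Agent.FreeHeat.Exist2

/-!
# The free-difference-quotient heat semigroup never converges uniformly (MP_5b305c_an, Q1)

Let `N` be a von Neumann algebra with a faithful normal tracial state `τ`, generated by self-adjoint
`x_1, …, x_m` (`m ≥ 1`) with finite free Fisher information, `Δ = ∑ ∂̄_i^* ∂̄_i` and
`φ_t = exp(-tΔ)` on `L²(N)`.  There is `c > 0` such that for EVERY `t > 0` some `y ∈ N` with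
`‖y‖ ≤ 1` has `‖φ_t(y) - y‖₂ ≥ c`.  In particular `φ_t` does not converge to the identity uniformly
on the unit ball of `N` as `t → 0⁺`.

The definitions are in `Pool/Agent/FreeHeat/Defs.lean`.
-/

open scoped InnerProductSpace Topology
open Filter Pool.Agent.FreeHeat

namespace Pool.Agent.Results.MP_5b305c_an.NoUniformHeat

universe u

/-- **Negative answer to Q1.**  Let `N = W*(x_1, …, x_m)` (`m ≥ 1`, `x_i` self-adjoint) be in standard
form on `H = L²(N)` with trace vector `Ω`, and assume finite free Fisher information.  Then the heat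
semigroup `exp(-tΔ)` exists, and no heat semigroup `φ` converges uniformly on the unit ball: there is
`c > 0` such that for every `t > 0` some `y ∈ N` with `‖y‖ ≤ 1` satisfies `‖φ_t(y) - y‖₂ ≥ c`, and
`sup {‖φ_t(y) - y‖₂ : y ∈ N, ‖y‖ ≤ 1}` does not tend to `0` as `t → 0⁺`. -/
theorem result {H : Type u} [NormedAddCommGroup H] [InnerProductSpace ℂ H] [CompleteSpace H]
    {m : ℕ} (hm : 1 ≤ m) (x : Fin m → H →L[ℂ] H) (hx : ∀ i, IsSelfAdjoint (x i))
    (N : VonNeumannAlgebra H)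
    (hNx : (N : Set (H →L[ℂ] H)) = Set.centralizer (Set.centralizer (Set.range x)))
    (Ω : H) (hN : IsStandardForm N Ω) (hF : FiniteFreeFisher x Ω) :
    (∃ φ : ℝ → H →L[ℂ] H, IsHeatSemigroup x Ω φ) ∧
    ∀ φ : ℝ → H →L[ℂ] H, IsHeatSemigroup x Ω φ →
      (∃ c : ℝ, 0 < c ∧ ∀ t : ℝ, 0 < t → ∃ y ∈ N, ‖y‖ ≤ 1 ∧ c ≤ ‖φ t (y Ω) - y Ω‖) ∧
      ¬ Tendsto (fun t : ℝ => sSup ((fun y : H →L[ℂ] H => ‖φ t (y Ω) - y Ω‖) ''
        {y | y ∈ N ∧ ‖y‖ ≤ 1})) (𝓝[>] 0) (𝓝 0) :=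
  ⟨exists_isHeatSemigroup hN hx hNx hF, fun φ hφ => not_uniform hm x hx N hNx Ω hN hF φ hφ⟩

end Pool.Agent.Results.MP_5b305c_an.NoUniformHeat
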